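import Pool.Agent.PSS.StmtsS0

/-!
# Squad PSS, row BKI (helper6): the Brauer kernel is an ideal of the centraliser
-/

open scoped BigOperators

noncomputable section

namespace Pool.Agent.PSS.S0.H6

open Pool.Agent.PFC (tw IsTv)
open Pool.Agent.PFD.D2b (FrR)

section

variable {R V A : Type} [CommRing R] [CommGroup V] [Ring A] [Algebra R A]

theorem cw_apply (α : V →* A) (u : V) (a : A) : cw R α u a = α u * (a * α u⁻¹) := rfl

theorem cw_mul (α : V →* A) (u : V) (a b : A) :
    cw R α u (a * b) = cw R α u a * cw R α u b := by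
  simp only [cw_apply]
  have h : α u⁻¹ * α u = 1 := by rw [← map_mul, inv_mul_cancel, map_one]
  calc α u * (a * b * α u⁻¹) = α u * (a * (1 * b * α u⁻¹)) := by simp only [one_mul, mul_assoc]
    _ = α u * (a * α u⁻¹) * (α u * (b * α u⁻¹)) := by
        rw [← h]
        simp only [mul_assoc]

theorem fx_mono (α : V →* A) {P P' : Subgroup V} (h : P' ≤ P) {a : A}
    (ha : a ∈ FxR (cw R α) P) : a ∈ FxR (cw R α) P' := fun u hu => ha u (h hu)

theorem fx_mul (α : V →* A) {P : Subgroup V} {a b : A} (ha : a ∈ FxR (cw R α) P)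
    (hb : b ∈ FxR (cw R α) P) : a * b ∈ FxR (cw R α) P := by
  intro u hu
  rw [cw_mul, ha u hu, hb u hu]

end

theorem bki : BkiStmt := by
  intro R V A _ _ _ _ α P a ha m hm
  refine Submodule.span_induction (p := fun m _ => a * m ∈ BKR (cw R α) P ∧
    m * a ∈ BKR (cw R α) P) ?_ ?_ ?_ ?_ hm
  · rintro n ⟨P', S, m', hlt, hS, hm', rfl⟩
    have hmem : ∀ x ∈ S, x ∈ P := hS.1
    constructor
    · refine Submodule.subset_span ⟨P', S, a * m', hlt, hS, fx_mul α (fx_mono α hlt.le ha) hm', ?_⟩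
      rw [Finset.mul_sum]
      refine Finset.sum_congr rfl fun x hx => ?_
      rw [cw_mul, ha x (hmem x hx)]
    · refine Submodule.subset_span ⟨P', S, m' * a, hlt, hS, fx_mul α hm' (fx_mono α hlt.le ha), ?_⟩
      rw [Finset.sum_mul]
      refine Finset.sum_congr rfl fun x hx => ?_
      rw [cw_mul, ha x (hmem x hx)]
  · rw [mul_zero, zero_mul]
    exact ⟨Submodule.zero_mem _, Submodule.zero_mem _⟩
  · rintro x y - - ⟨hx1, hx2⟩ ⟨hy1, hy2⟩
    rw [mul_add, add_mul]
    exact ⟨Submodule.add_mem _ hx1 hy1, Submodule.add_mem _ hx2 hy2⟩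
  · rintro r x - ⟨hx1, hx2⟩
    rw [mul_smul_comm, smul_mul_assoc]
    exact ⟨Submodule.smul_mem _ _ hx1, Submodule.smul_mem _ _ hx2⟩

end Pool.Agent.PSS.S0.H6
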