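import Pool.Agent.PSS.StmtsS5

/-!
# Squad PSS, block S5, row TPJ (helper6): the Brauer quotient of the corner, and the form
-/

open scoped BigOperators TensorProduct

noncomputable section

namespace Pool.Agent.PSS.S5.H6

open Pool.Agent.PFC (tw IsTv)
open Pool.Agent.PSS.S0 (IsBQ BqxStmt BpuStmt MckStmt ZrtStmt)

section aux

variable {F V A B : Type} [Field F] [CommGroup V] [Ring A] [Algebra F A] [Ring B] [Algebra F B]

theorem mem_fx (α : V →* A) (Q : Subgroup V) (a : A) :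
    a ∈ FxR (cw F α) Q ↔ ∀ v ∈ Q, α v * a = a * α v := by
  have h1 : ∀ v, cw F α v a = α v * (a * α v⁻¹) := fun _ => rfl
  have h2 : ∀ v, α v⁻¹ * α v = 1 := fun v => by rw [← map_mul, inv_mul_cancel, map_one]
  have h3 : ∀ v, α v * α v⁻¹ = 1 := fun v => by rw [← map_mul, mul_inv_cancel, map_one]
  constructor
  · intro h v hv
    have h4 : α v * (a * α v⁻¹) = a := h v hv
    calc α v * a = α v * (a * α v⁻¹) * α v := by rw [mul_assoc, mul_assoc a, h2, mul_one]
      _ = a * α v := by rw [h4]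
  · intro h v hv
    rw [h1, ← mul_assoc, h v hv, mul_assoc, h3, mul_one]

theorem fx_mul (α : V →* A) {Q : Subgroup V} {a b : A} (ha : a ∈ FxR (cw F α) Q)
    (hb : b ∈ FxR (cw F α) Q) : a * b ∈ FxR (cw F α) Q := by
  rw [mem_fx] at ha hb ⊢
  intro v hv
  rw [← mul_assoc, ha v hv, mul_assoc, hb v hv, mul_assoc]

theorem fx_one (α : V →* A) (Q : Subgroup V) : (1 : A) ∈ FxR (cw F α) Q := by
  rw [mem_fx]
  intro v _
  rw [mul_one, one_mul]

theorem fx_al (α : V →* A) (Q : Subgroup V) (v : V) : α v ∈ FxR (cw F α) Q := by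
  rw [mem_fx]
  intro u _
  rw [← map_mul, ← map_mul, mul_comm]

/-- the Brauer map on the centraliser, a linear map -/
def bl {α : V →* A} {Q : Subgroup V} {αB : V →* B} {β : A → B} (h : IsBQ F α Q αB β) :
    FxR (cw F α) Q →ₗ[F] B where
  toFun := fun a => β a
  map_add' := fun a b => h.add a a.2 b b.2
  map_smul' := fun r a => h.smul r a a.2

theorem be_sum {α : V →* A} {Q : Subgroup V} {αB : V →* B} {β : A → B} (h : IsBQ F α Q αB β)
    {ι : Type} (s : Finset ι) (f : ι → A) (hf : ∀ i, f i ∈ FxR (cw F α) Q) :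
    β (∑ i ∈ s, f i) = ∑ i ∈ s, β (f i) := by
  have h1 : β (∑ i ∈ s, f i) = bl h (∑ i ∈ s, ⟨f i, hf i⟩) := by
    change _ = β ((∑ i ∈ s, (⟨f i, hf i⟩ : FxR (cw F α) Q) : FxR (cw F α) Q) : A)
    rw [AddSubmonoidClass.coe_finsetSum]
  rw [h1, map_sum]
  rfl

theorem be_sub {α : V →* A} {Q : Subgroup V} {αB : V →* B} {β : A → B} (h : IsBQ F α Q αB β)
    {a b : A} (ha : a ∈ FxR (cw F α) Q) (hb : b ∈ FxR (cw F α) Q) :
    β (a - b) = β a - β b := by
  have h1 : bl h (⟨a, ha⟩ - ⟨b, hb⟩) = bl h ⟨a, ha⟩ - bl h ⟨b, hb⟩ := map_sub _ _ _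
  exact h1

end aux

theorem tpj (tpl : TplStmt) (lbr : LbrStmt) (mck : MckStmt) (bpu : BpuStmt) (bqx : BqxStmt)
    (zrt : ZrtStmt) : TpjStmt := by
  classical
  intro ℓ _ F V E A K _ _ _ _ _ _ _ _ _ _ φ α lam x y u j hV hE hC hRF hu hj
  obtain ⟨B, _, _, αB, β, hB⟩ := bqx F V A α ⊤
  have hl0 : (ℓ : F) = 0 := CharP.cast_eq_zero F ℓ
  obtain ⟨E1, hE1⟩ : ∃ E1 : Subgroup E, ∀ e, e ∈ E1 ↔ ∀ q ∈ (⊤ : Subgroup V), φ e q = q :=
    ⟨{  carrier := {e | ∀ q ∈ (⊤ : Subgroup V), φ e q = q}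
        one_mem' := fun q _ => by rw [map_one]; rfl
        mul_mem' := by
          intro a b ha hb q hq
          rw [map_mul, MulAut.mul_apply, hb q hq, ha q hq]
        inv_mem' := by
          intro a ha q hq
          have h1 : φ a q = q := ha q hq
          have h2 : (φ a)⁻¹ (φ a q) = q := MulAut.inv_apply_self _ _ _
          rw [h1] at h2
          rw [map_inv, h2] }, fun e => Iff.rfl⟩
  obtain ⟨-, -, lamB, KB, _, xB, yB, hRB, hlB⟩ := bpu ℓ F V E A B K φ α ⊤ αB β lam x y E1 hl0 hV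
    hC.per hC.uni hRF hB hE1
  have hFD : FiniteDimensional F A := hC.fin
  -- `B` is finite dimensional
  have hFB : FiniteDimensional F B := by
    refine Module.Finite.of_surjective (bl hB) ?_
    intro b
    obtain ⟨a, ha, hab⟩ := hB.surj b
    exact ⟨⟨a, ha⟩, hab⟩
  -- `V` is central in `B`
  have hcen : ∀ v b, αB v * b = b * αB v := by
    intro v b
    obtain ⟨a, ha, rfl⟩ := hB.surj b
    rw [← hB.om, ← hB.mul _ (fx_al α ⊤ v) _ ha, ← hB.mul _ ha _ (fx_al α ⊤ v),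
      (mem_fx α ⊤ a).1 ha v (Subgroup.mem_top v)]
  -- the element `ζ`
  set ζ : A := ∑ k, x k * y k with hζ
  have hζc : ∀ c, c * ζ = ζ * c := by
    intro c
    have h1 := zrt F V A K α lam x y hRF 1 (fx_one α ⊤) c
    simpa only [mul_one] using h1
  have huc : ∀ c, c * u = u * c := by
    intro c
    calc c * u = u * ζ * (c * u) := by rw [hu, one_mul]
      _ = u * (ζ * c) * u := by simp only [mul_assoc]
      _ = u * (c * ζ) * u := by rw [hζc c]
      _ = u * c * (ζ * u) := by simp only [mul_assoc]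
      _ = u * c * (u * ζ) := by rw [hζc u]
      _ = u * c := by rw [hu, mul_one]
  have huF : u ∈ FxR (cw F α) ⊤ := by
    rw [mem_fx]
    intro v _
    exact huc _
  have hζF : ζ ∈ FxR (cw F α) ⊤ := by
    rw [mem_fx]
    intro v _
    exact hζc _
  -- units
  choose n n' hn1 hn2 hn3 using hC.uni
  -- the transversal
  let T : Finset E := Set.Finite.toFinset (s := Set.range (fun s : φ.range => s.2.choose))
    (Set.finite_range _)
  have hT : ∀ e : E, ∃! t, t ∈ T ∧ ∀ q ∈ (⊤ : Subgroup V), (φ t)⁻¹ q = (φ e)⁻¹ q := by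
    intro e
    have hm : φ e ∈ φ.range := ⟨e, rfl⟩
    refine ⟨hm.choose, ⟨?_, ?_⟩, ?_⟩
    · rw [Set.Finite.mem_toFinset]
      exact ⟨⟨φ e, hm⟩, rfl⟩
    · intro q _
      rw [hm.choose_spec]
    · rintro t ⟨ht, htq⟩
      rw [Set.Finite.mem_toFinset] at ht
      obtain ⟨⟨s, hs⟩, rfl⟩ := ht
      have h1 : φ hs.choose = s := hs.choose_spec
      have h2 : (φ hs.choose)⁻¹ = (φ e)⁻¹ := MulEquiv.ext fun q => htq q (Subgroup.mem_top q)
      rw [h1, inv_inj] at h2
      subst h2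
      rfl
  have hTc : T.card = Nat.card φ.range := by
    have h1 : Function.Injective (fun s : φ.range => s.2.choose) := by
      intro s s' h
      apply Subtype.ext
      have h2 : φ s.2.choose = s := s.2.choose_spec
      have h3 : φ s'.2.choose = s' := s'.2.choose_spec
      have h4 : s.2.choose = s'.2.choose := h
      rw [← h2, ← h3, h4]
    have h5 := Set.ncard_eq_toFinset_card (Set.range (fun s : φ.range => s.2.choose))
      (Set.finite_range _)
    rw [← Nat.card_coe_set_eq, Nat.card_range_of_injective h1] at h5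
    exact h5.symm
  have hTd : (T.card : F) ≠ 0 := by
    intro h0
    rw [CharP.cast_eq_zero_iff F ℓ, hTc] at h0
    exact hE (h0.trans (Subgroup.card_range_dvd φ))
  have hM := mck ℓ F V E A B K KB φ α ⊤ αB β lam x y lamB xB yB n n' T hl0 hV hC.per hRF hB hRB
    hlB (fun e => ⟨hn1 e, hn2 e, hn3 e⟩) hT 1 (fx_one α ⊤)
  have hM2 : β ζ = (T.card : F) • ∑ k, xB k * yB k := by
    simp only [mul_one] at hM
    rw [hζ, hM]
    have h1 : ∀ t ∈ T, ∑ k, xB k * β (n t * n' t) * yB k = ∑ k, xB k * yB k := by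
      intro t _
      refine Finset.sum_congr rfl fun k _ => ?_
      rw [hn1, hB.one, mul_one]
    rw [Finset.sum_congr rfl h1, Finset.sum_const, Nat.cast_smul_eq_nsmul]
  have huB : ((T.card : F) • β u) * ∑ k, xB k * yB k = 1 := by
    rw [smul_mul_assoc, ← mul_smul_comm, ← hM2, ← hB.mul u huF ζ hζF, hu, hB.one]
  -- the idempotent
  have hjB : Loi F αB (β j) := (lbr ℓ F V E A B K φ α ⊤ αB β lam x y hV hC.per hRF hB).1 j hj
  have hjn : β j ≠ 0 := by
    intro h0
    exact hjB.nz (by rw [h0]; exact Submodule.zero_mem _)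
  have hall : ∀ b : B, b ∈ FxR (cw F αB) ⊤ := by
    intro b
    rw [mem_fx]
    intro v _
    exact hcen v b
  obtain ⟨h5, h6⟩ := tpl ℓ F V B KB αB lamB xB yB ((T.card : F) • β u) (β j) hV hcen hRB huB
    hjB.id hjn (fun a => by
      rcases hjB.loc a (hall a) with h | ⟨a', -, h1, h2⟩
      · exact Or.inl h
      · exact Or.inr ⟨a', h1, h2⟩)
  have hvj : ∀ v, α v * j ∈ FxR (cw F α) ⊤ := fun v => fx_mul α (fx_al α ⊤ v) hj.fx
  constructor
  · intro a ha
    obtain ⟨c, hc⟩ := h5 (β a)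
    refine ⟨c, ?_⟩
    have h7 : j * a * j ∈ FxR (cw F α) ⊤ := fx_mul α (fx_mul α hj.fx ha) hj.fx
    have h8 : ∀ v, c v • (α v * j) ∈ FxR (cw F α) ⊤ := fun v =>
      Submodule.smul_mem _ _ (hvj v)
    have h9 : ∑ v, c v • (α v * j) ∈ FxR (cw F α) ⊤ := Submodule.sum_mem _ fun v _ => h8 v
    refine (hB.ker _ (Submodule.sub_mem _ h7 h9)).1 ?_
    rw [be_sub hB h7 h9, be_sum hB _ _ h8, hB.mul _ (fx_mul α hj.fx ha) _ hj.fx,
      hB.mul _ hj.fx _ ha, hc, sub_eq_zero]
    refine Finset.sum_congr rfl fun v _ => ?_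
    rw [hB.smul _ _ (hvj v), hB.mul _ (fx_al α ⊤ v) _ hj.fx, hB.om]
  · have h10 : (∑ v, α v) ∈ FxR (cw F α) ⊤ := Submodule.sum_mem _ fun v _ => fx_al α ⊤ v
    rw [← hlB _ (fx_mul α h10 hj.fx), hB.mul _ h10 _ hj.fx, be_sum hB _ _ (fx_al α ⊤)]
    have h11 : ∑ v, β (α v) = ∑ v, αB v := Finset.sum_congr rfl fun v _ => hB.om v
    rw [h11]
    exact h6

end Pool.Agent.PSS.S5.H6
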