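import Pool.Agent.PSS.StmtsS2

/-!
# Squad PSS, row VDR (helper6): the direction over `R`
-/

open scoped BigOperators

noncomputable section

namespace Pool.Agent.PSS.H6

open Pool.Agent.PSS.S2
open Pool.Agent.PFC (tw IsTv)
open Pool.Agent.PFD.D2b (FrR)

section cg

variable {R M : Type} [CommRing R] [AddCommGroup M] [Module R M]

theorem cg_refl (q : R) (a : M) : Cg q a a := ⟨0, by simp⟩

theorem cg_symm {q : R} {a b : M} (h : Cg q a b) : Cg q b a := by
  obtain ⟨d, hd⟩ := h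
  exact ⟨-d, by rw [smul_neg, ← hd]; abel⟩

theorem cg_trans {q : R} {a b c : M} (h : Cg q a b) (h' : Cg q b c) : Cg q a c := by
  obtain ⟨d, hd⟩ := h
  obtain ⟨e, he⟩ := h'
  exact ⟨d + e, by rw [smul_add, ← hd, ← he]; abel⟩

theorem cg_add {q : R} {a b c d : M} (h : Cg q a b) (h' : Cg q c d) : Cg q (a + c) (b + d) := by
  obtain ⟨e, he⟩ := h
  obtain ⟨f, hf⟩ := h'
  exact ⟨e + f, by rw [smul_add, ← he, ← hf]; abel⟩

theorem cg_sub {q : R} {a b c d : M} (h : Cg q a b) (h' : Cg q c d) : Cg q (a - c) (b - d) := by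
  obtain ⟨e, he⟩ := h
  obtain ⟨f, hf⟩ := h'
  exact ⟨e - f, by rw [smul_sub, ← he, ← hf]; abel⟩

theorem cg_map {N : Type} [AddCommGroup N] [Module R N] {q : R} {a b : M} (f : M →ₗ[R] N)
    (h : Cg q a b) : Cg q (f a) (f b) := by
  obtain ⟨d, hd⟩ := h
  exact ⟨f d, by rw [← map_sub, hd, map_smul]⟩

end cg

section val

variable {R : Type} [CommRing R]

theorem val_add_cg (n : ℕ) [NeZero n] (p q : ZMod n) :
    Cg (n : R) (((p + q).val : ℕ) : R) ((p.val : R) + (q.val : R)) := by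
  refine ⟨-(((p.val + q.val) / n : ℕ) : R), ?_⟩
  have h : (p + q).val = (p.val + q.val) % n := ZMod.val_add p q
  have h2 : (p.val + q.val) % n + n * ((p.val + q.val) / n) = p.val + q.val :=
    Nat.mod_add_div _ _
  have h3 : (((p + q).val : ℕ) : R) + (n : R) * (((p.val + q.val) / n : ℕ) : R) =
      (p.val : R) + (q.val : R) := by
    rw [h]
    exact_mod_cast congrArg (fun t : ℕ => (t : R)) h2
  rw [← h3, smul_eq_mul]
  ring

theorem val_sub_cg (n : ℕ) [NeZero n] (p q : ZMod n) :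
    Cg (n : R) (((p - q).val : ℕ) : R) ((p.val : R) - (q.val : R)) := by
  have h := val_add_cg (R := R) n (p - q) q
  rw [sub_add_cancel] at h
  have h2 := cg_sub (cg_symm h) (cg_refl (n : R) ((q.val : ℕ) : R))
  simpa using h2

theorem val_one_cg (n : ℕ) [NeZero n] : Cg (n : R) ((((1 : ZMod n)).val : ℕ) : R) 1 := by
  refine ⟨-(((1 / n : ℕ)) : R), ?_⟩
  have h : (1 : ZMod n).val = 1 % n := ZMod.val_one_eq_one_mod n
  have h2 : 1 % n + n * (1 / n) = 1 := Nat.mod_add_div _ _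
  have h3 : ((((1 : ZMod n)).val : ℕ) : R) + (n : R) * (((1 / n : ℕ)) : R) = 1 := by
    rw [h]
    have h4 := congrArg (fun t : ℕ => (t : R)) h2
    simpa using h4
  rw [← h3, smul_eq_mul]
  ring

end val

theorem vdr (chi : ChiStmt) (hew : HewStmt) (cnh : CnhStmt) (dgz : DgzStmt) (trc : TrcStmt)
    (gwz : GwzStmt) (wwl : WwlStmt) : VdrStmt := by
  intro R V E A K Ω _ _ _ _ _ _ _ _ _ φ α z W lam x y b c hRF hP hs hc
  obtain ⟨χ₀, hadd, hz, hW⟩ := chi V W z hc
  obtain ⟨H₀, hH⟩ := hew R V E A Ω φ α b c W (ZMod (orderOf z)) χ₀ hP hs hadd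
    (fun w hw => (hW w).2 hw)
  have : NeZero (orderOf z) := ⟨(orderOf_pos z).ne'⟩
  have h1 : χ₀ 1 = 0 := (hW 1).2 (one_mem W)
  have hadd' : ∀ u v, Cg ((orderOf z : ℕ) : R) (((χ₀ (u * v)).val : ℕ) : R)
      (((χ₀ u).val : ℕ) + ((χ₀ v).val : ℕ) : R) := by
    intro u v
    rw [hadd]
    exact val_add_cg _ _ _
  have hH' : ∀ (v : V) (ω : Ω), Cg ((orderOf z : ℕ) : R)
      (((H₀ (((1 : V), v) • ω)).val : ℕ) : R) (((H₀ ω).val : ℕ) - ((χ₀ v).val : ℕ) : R) := by
    intro v ω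
    rw [hH 1 (one_mem W) v ω]
    exact val_sub_cg _ _ _
  have hN : Cn ((orderOf z : ℕ) : R) α (fun v => (((χ₀ v).val : ℕ) : R))
      (Nh (fun ω => (((H₀ ω).val : ℕ) : R)) b c) :=
    cnh R V A Ω ((orderOf z : ℕ) : R) α (fun v => (((χ₀ v).val : ℕ) : R))
      (fun ω => (((H₀ ω).val : ℕ) : R)) b c hP.fr hadd' hH'
  have hD := dgz R V A K ((orderOf z : ℕ) : R) α z lam x y (fun v => (((χ₀ v).val : ℕ) : R))
    (Nh (fun ω => (((H₀ ω).val : ℕ) : R)) b c) hRF hN
  have hz' : Cg ((orderOf z : ℕ) : R) ((((χ₀ z).val : ℕ)) : R) 1 := by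
    rw [hz]
    exact val_one_cg _
  have hT := trc R V A K ((orderOf z : ℕ) : R) α z lam x y (fun v => (((χ₀ v).val : ℕ) : R))
    (Nh (fun ω => (((H₀ ω).val : ℕ) : R)) b c) hRF hN hz'
  have hG : ∀ w ∈ W, Cg ((orderOf z : ℕ) : R)
      (Gz α z x y (Nh (fun ω => (((H₀ ω).val : ℕ) : R)) b c) (α w)) 0 := by
    intro w hw
    refine gwz R V A K Ω ((orderOf z : ℕ) : R) α z x y (fun ω => (((H₀ ω).val : ℕ) : R)) b c w
      hP.fr ?_
    intro ω
    have h2 := hH w hw 1 ω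
    rw [h1, sub_zero] at h2
    simp only [h2]
    exact cg_refl _ _
  obtain ⟨v, hv1, hv2⟩ := wwl R V A Ω ((orderOf z : ℕ) : R) α b c W
    (Gz α z x y (Nh (fun ω => (((H₀ ω).val : ℕ) : R)) b c)) hP.fr (by
      intro w hw a
      constructor
      · have h3 := cg_add (cg_map (LinearMap.mulRight R a) (hG w hw))
          (cg_refl ((orderOf z : ℕ) : R)
            (α w * Gz α z x y (Nh (fun ω => (((H₀ ω).val : ℕ) : R)) b c) a))
        simp only [LinearMap.mulRight_apply, zero_mul, zero_add] at h3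
        exact cg_trans (hD (α w) a) h3
      · have h3 := cg_add (cg_refl ((orderOf z : ℕ) : R)
            (Gz α z x y (Nh (fun ω => (((H₀ ω).val : ℕ) : R)) b c) a * α w))
          (cg_map (LinearMap.mulLeft R a) (hG w hw))
        simp only [LinearMap.mulLeft_apply, mul_zero, add_zero] at h3
        exact cg_trans (hD a (α w)) h3)
  refine ⟨H₀, v, hv1, ?_, ?_, ⟨χ₀, hadd, hz, fun v' ω => hH 1 (one_mem W) v' ω⟩, hv2⟩
  · intro a d
    refine cg_trans (hv2 (a * d)) (cg_trans (hD a d) ?_)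
    have h4 := cg_add (cg_map (LinearMap.mulRight R d) (cg_symm (hv2 a)))
      (cg_map (LinearMap.mulLeft R a) (cg_symm (hv2 d)))
    simpa only [LinearMap.mulRight_apply, LinearMap.mulLeft_apply] using h4
  · intro a
    exact cg_trans (cg_map lam (hv2 a)) (hT a)

end Pool.Agent.PSS.H6
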